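import Pool.Agent.helper7.AL.SpecE

set_option autoImplicit false

namespace Pool.Agent.LD

open Finset Pool.Agent.helper85.FC Pool.Agent.AT

theorem DUE (h : LEE_stmt) : DUE_stmt := by
  classical
  intro θ
  by_cases hA : ∀ k : ℕ, 1 ≤ k → ∃ K : ℕ, BoxT θ k (fun _ => 1) K
  · exact Or.inl hA
  · right
    push Not at hA
    obtain ⟨k, hk, hK⟩ := hA
    intro m μ hm hμ
    obtain ⟨K, _, hE⟩ := h k m hk hm
    rcases hE θ (fun _ => 1) (fun _ => Nat.one_pos) with h1 | h1
    · exact absurd h1 (hK K)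
    · obtain ⟨C, hC⟩ := h1 μ hμ
      refine ⟨3 * C + 1, fun w => ?_⟩
      obtain ⟨hh, x, I, i, hb, hI, hn⟩ := hC fun p => w p + C
      refine ⟨fun p => hh p + x p, I, fun p => ?_, hI, fun N => ?_⟩
      · obtain ⟨b1, b2, b3⟩ := hb p
        have b4 := abs_le.1 b3
        push_cast
        constructor
        · linarith [b4.1]
        · linarith [b4.2]
      · obtain ⟨n, hn1, hn2⟩ := hn N
        refine ⟨n, hn1, fun p hp => ?_⟩
        have h2 := hn2 p hp
        unfold ev at h2
        simp only [one_mul, Nat.cast_one] at h2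
        exact h2

end Pool.Agent.LD
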