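import Pool.Agent.helper7.AL.SpecG

set_option autoImplicit false

/-!
# Project AL (MP_bf63dc_nt): row GHS
-/

namespace Pool.Agent.AL

open Finset Pool.Agent.helper85.FC Pool.Agent.helper11.MK

theorem GHS_crt (S : Finset ℕ) (hS : ∀ l ∈ S, l.Prime) (r : ℕ → ℤ) : ∃ g : ℤ, ∀ l ∈ S, (l : ℤ) ∣ g - r l := by
  classical
  induction S using Finset.induction_on with
  | empty => exact ⟨0, fun l hl => absurd hl (Finset.notMem_empty l)⟩
  | insert p S hpS ih =>
    obtain ⟨h', hh'⟩ := ih (fun l hl => hS l (Finset.mem_insert_of_mem hl))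
    have hp := hS p (Finset.mem_insert_self p S)
    have hcop : IsCoprime (((∏ l ∈ S, l : ℕ)) : ℤ) (p : ℤ) := by
      rw [Nat.isCoprime_iff_coprime]
      apply Nat.Coprime.symm
      rw [Nat.coprime_prod_right_iff]
      intro l hl
      rw [Nat.coprime_primes hp (hS l (Finset.mem_insert_of_mem hl))]
      rintro rfl
      exact hpS hl
    obtain ⟨a, b, hab⟩ := hcop
    refine ⟨h' + a * ((∏ l ∈ S, l : ℕ) : ℤ) * (r p - h'), ?_⟩
    intro l hl
    rw [Finset.mem_insert] at hl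
    rcases hl with rfl | hl
    · refine ⟨-(b * (r l - h')), ?_⟩
      linear_combination (r l - h') * hab
    · have hdl : (l : ℤ) ∣ a * ((∏ l ∈ S, l : ℕ) : ℤ) * (r p - h') := by
        have h4 : (l : ℤ) ∣ ((∏ l ∈ S, l : ℕ) : ℤ) := by
          exact_mod_cast Finset.dvd_prod_of_mem (fun l : ℕ => l) hl
        exact Dvd.dvd.mul_right (Dvd.dvd.mul_left h4 a) _
      have h5 : h' + a * ((∏ l ∈ S, l : ℕ) : ℤ) * (r p - h') - r l =
          (h' - r l) + a * ((∏ l ∈ S, l : ℕ) : ℤ) * (r p - h') := by ring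
      rw [h5]
      exact dvd_add (hh' l hl) hdl

theorem GHS_diff (p : ℕ) (hp : p.Prime) (hp3 : 2 < p) (b x : ℤ) (hb : ¬ (p : ℤ) ∣ b) (i j : ℤ) (hij : i < j) (hij2 : j ≤ i + 2)
    (h1 : (p : ℤ) ∣ b * i + x) (h2 : (p : ℤ) ∣ b * j + x) : False := by
  have h3 := dvd_sub h2 h1
  have h4 : b * j + x - (b * i + x) = b * (j - i) := by ring
  rw [h4] at h3
  rcases (Nat.prime_iff_prime_int.1 hp).dvd_or_dvd h3 with h5 | h5
  · exact hb h5
  · have h6 := Int.le_of_dvd (by omega) h5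
    omega

theorem GHS_loc (p : ℕ) (hp : p.Prime) (a₀ b₀ : ℕ) (x y : ℤ) (h : Poss a₀ b₀ (a₀ * x - b₀ * y)) :
    ∃ r : ℤ, ¬ (p : ℤ) ∣ b₀ * r + x ∧ ¬ (p : ℤ) ∣ a₀ * r + y := by
  obtain ⟨ha, hb, hc, hab, hac, hbc, hodd⟩ := h
  have hpI := Nat.prime_iff_prime_int.1 hp
  have hab' : ¬ ((p : ℤ) ∣ (a₀ : ℤ) ∧ (p : ℤ) ∣ (b₀ : ℤ)) := by
    rintro ⟨h1, h2⟩
    have h3 := Nat.dvd_gcd (Int.natCast_dvd_natCast.1 h1) (Int.natCast_dvd_natCast.1 h2)
    rw [hab] at h3
    exact hp.one_lt.ne' (Nat.dvd_one.1 h3)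
  by_cases hpb : (p : ℤ) ∣ (b₀ : ℤ)
  · have hpa : ¬ (p : ℤ) ∣ (a₀ : ℤ) := fun h' => hab' ⟨h', hpb⟩
    have hx : ¬ (p : ℤ) ∣ x := by
      intro hx
      exact hpI.not_unit (hbc.isUnit_of_dvd' hpb (dvd_sub (Dvd.dvd.mul_left hx _) (Dvd.dvd.mul_right hpb _)))
    have h1 : ∀ r : ℤ, ¬ (p : ℤ) ∣ b₀ * r + x := fun r hr => hx ((dvd_add_right (Dvd.dvd.mul_right hpb r)).1 hr)
    by_cases hy : (p : ℤ) ∣ y
    · refine ⟨1, h1 1, fun h' => hpa ?_⟩
      have := (dvd_add_left hy).1 h'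
      rwa [mul_one] at this
    · refine ⟨0, h1 0, fun h' => hy ?_⟩
      simp only [mul_zero, zero_add] at h'
      exact h'
  · by_cases hpa : (p : ℤ) ∣ (a₀ : ℤ)
    · have hy : ¬ (p : ℤ) ∣ y := by
        intro hy
        exact hpI.not_unit (hac.isUnit_of_dvd' hpa (dvd_sub (Dvd.dvd.mul_right hpa _) (Dvd.dvd.mul_left hy _)))
      have h1 : ∀ r : ℤ, ¬ (p : ℤ) ∣ a₀ * r + y := fun r hr => hy ((dvd_add_right (Dvd.dvd.mul_right hpa r)).1 hr)
      by_cases hx : (p : ℤ) ∣ x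
      · refine ⟨1, fun h' => hpb ?_, h1 1⟩
        have := (dvd_add_left hx).1 h'
        rwa [mul_one] at this
      · refine ⟨0, fun h' => hx ?_, h1 0⟩
        simp only [mul_zero, zero_add] at h'
        exact h'
    · rcases Nat.lt_or_ge 2 p with hp3 | hp2
      · by_contra hcon
        push Not at hcon
        have c0 := hcon 0
        have c1 := hcon 1
        have c2 := hcon 2
        have hX : ∀ i j : ℤ, i < j → j ≤ i + 2 → (p : ℤ) ∣ b₀ * i + x → (p : ℤ) ∣ b₀ * j + x → False :=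
          fun i j h1 h2 h3 h4 => GHS_diff p hp hp3 b₀ x hpb i j h1 h2 h3 h4
        have hY : ∀ i j : ℤ, i < j → j ≤ i + 2 → (p : ℤ) ∣ a₀ * i + y → (p : ℤ) ∣ a₀ * j + y → False :=
          fun i j h1 h2 h3 h4 => GHS_diff p hp hp3 a₀ y hpa i j h1 h2 h3 h4
        by_cases d0 : (p : ℤ) ∣ b₀ * 0 + x
        · by_cases d1 : (p : ℤ) ∣ b₀ * 1 + x
          · exact hX 0 1 (by norm_num) (by norm_num) d0 d1
          · by_cases d2 : (p : ℤ) ∣ b₀ * 2 + x
            · exact hX 0 2 (by norm_num) (by norm_num) d0 d2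
            · exact hY 1 2 (by norm_num) (by norm_num) (c1 d1) (c2 d2)
        · by_cases d1 : (p : ℤ) ∣ b₀ * 1 + x
          · by_cases d2 : (p : ℤ) ∣ b₀ * 2 + x
            · exact hX 1 2 (by norm_num) (by norm_num) d1 d2
            · exact hY 0 2 (by norm_num) (by norm_num) (c0 d0) (c2 d2)
          · exact hY 0 1 (by norm_num) (by norm_num) (c0 d0) (c1 d1)
      · have hp2' : p = 2 := le_antisymm hp2 hp.two_le
        subst hp2'
        have oa : Odd a₀ := by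
          rw [← Nat.not_even_iff_odd, even_iff_two_dvd]
          intro h'
          exact hpa (Int.natCast_dvd_natCast.2 h')
        have ob : Odd b₀ := by
          rw [← Nat.not_even_iff_odd, even_iff_two_dvd]
          intro h'
          exact hpb (Int.natCast_dvd_natCast.2 h')
        have oc : Even ((a₀ : ℤ) * x - b₀ * y) := by
          rw [← Int.not_odd_iff_even]
          exact fun h' => hodd ⟨oa, ob, h'⟩
        obtain ⟨a', ha'⟩ := oa
        obtain ⟨b', hb'⟩ := ob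
        obtain ⟨c', hc'⟩ := oc
        rw [ha', hb'] at hc' ⊢
        push_cast at hc' ⊢
        have e1 : x - y = 2 * (c' - a' * x + b' * y) := by linear_combination hc'
        refine ⟨1 + x, ?_, ?_⟩
        · rintro ⟨t, ht⟩
          have : (1 : ℤ) = 2 * (t - b' * (1 + x) - x) := by linear_combination ht
          omega
        · rintro ⟨t, ht⟩
          have : (1 : ℤ) = 2 * (t - a' * (1 + x) - y - (c' - a' * x + b' * y)) := by linear_combination ht - e1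
          omega

theorem GHS : GHS_stmt := by
  classical
  intro m a₀ b₀ X Y α β hX hY hα hβ hP
  obtain ⟨x0, hx0⟩ := hX
  obtain ⟨y0, hy0⟩ := hY
  have hloc : ∀ p : ℕ, ∃ r : ℤ, p.Prime → ¬ (p : ℤ) ∣ b₀ * r + x0 ∧ ¬ (p : ℤ) ∣ a₀ * r + y0 := by
    intro p
    by_cases hp : p.Prime
    · obtain ⟨r, hr⟩ := GHS_loc p hp a₀ b₀ x0 y0 (hP x0 hx0 y0 hy0)
      exact ⟨r, fun _ => hr⟩
    · exact ⟨0, fun h => absurd h hp⟩
  choose r hr using hloc
  obtain ⟨g, hg⟩ := GHS_crt ((range (m + 1)).filter Nat.Prime) (fun l hl => (Finset.mem_filter.1 hl).2) r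
  refine ⟨g, fun l hl hlm => ?_⟩
  have h1 := hg l (Finset.mem_filter.2 ⟨Finset.mem_range.2 (Nat.lt_succ_of_le hlm), hl⟩)
  have hlf : (l : ℤ) ∣ ((m.factorial : ℕ) : ℤ) := Int.natCast_dvd_natCast.2 (Nat.dvd_factorial hl.pos hlm)
  refine ⟨fun x hx hd => (hr l hl).1 ?_, fun y hy hd => (hr l hl).2 ?_⟩
  · have h2 : (l : ℤ) ∣ x - α := hlf.trans (hα x hx)
    have h3 : (l : ℤ) ∣ x0 - α := hlf.trans (hα x0 hx0)
    have e : (b₀ : ℤ) * r l + x0 = (b₀ * g + x) - b₀ * (g - r l) - (x - α) + (x0 - α) := by ring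
    rw [e]
    exact dvd_add (dvd_sub (dvd_sub hd (Dvd.dvd.mul_left h1 _)) h2) h3
  · have h2 : (l : ℤ) ∣ y - β := hlf.trans (hβ y hy)
    have h3 : (l : ℤ) ∣ y0 - β := hlf.trans (hβ y0 hy0)
    have e : (a₀ : ℤ) * r l + y0 = (a₀ * g + y) - a₀ * (g - r l) - (y - β) + (y0 - β) := by ring
    rw [e]
    exact dvd_add (dvd_sub (dvd_sub hd (Dvd.dvd.mul_left h1 _)) h2) h3

end Pool.Agent.AL
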